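import Mathlib

/-! Prediction of the digits of a real number by finite-state machines. -/

set_option autoImplicit false

namespace Pool.Agent.V60.FSP

open Finset

/-- the `i`-th digit of `x` in base `b` -/
noncomputable def dg (b : ℕ) (x : ℝ) (i : ℕ) : ℤ := ⌊x * (b : ℝ) ^ i⌋ % (b : ℤ)

/-- the state after reading the terms with index at most `i`, started in the state `q₀` at time `A` -/
def st {Q : Type} (δ : Q → ℤ → Q) (s : ℕ → ℤ) (q₀ : Q) (A : ℕ) : ℕ → Q
  | 0 => q₀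
  | i + 1 => δ (st δ s q₀ A i) (s (A + i + 1))

/-- the number of wrong predictions -/
def err {Q : Type} [Fintype Q] (δ : Q → ℤ → Q) (g : Q → ℤ) (s : ℕ → ℤ) (q₀ : Q) (A n : ℕ) : ℕ :=
  ((range n).filter (fun i => g (st δ s q₀ A i) ≠ s (A + i + 1))).card

theorem floor_succ (b : ℕ) (hb : 2 ≤ b) (x : ℝ) (i : ℕ) :
    ⌊x * (b : ℝ) ^ (i + 1)⌋ = b * ⌊x * (b : ℝ) ^ i⌋ + dg b x (i + 1) := by
  unfold dg
  have hb0 : (0 : ℝ) < b := by positivity
  set y := x * (b : ℝ) ^ i with hy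
  have e1 : x * (b : ℝ) ^ (i + 1) = b * y := by rw [hy, pow_succ]; ring
  rw [e1]
  set F := ⌊(b : ℝ) * y⌋ with hF
  set f := ⌊y⌋ with hf
  have h1 : (b : ℤ) * f ≤ F := by
    rw [hF, Int.le_floor]
    push_cast
    exact mul_le_mul_of_nonneg_left (Int.floor_le y) hb0.le
  have h2 : F < b * f + b := by
    rw [hF, Int.floor_lt]
    push_cast
    have := mul_lt_mul_of_pos_left (Int.lt_floor_add_one y) hb0
    linarith
  have h3 : F % (b : ℤ) = F - b * f := by
    have e2 : F = (F - b * f) + b * f := by ring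
    have h4 : (F - b * f + b * f) % (b : ℤ) = F - b * f := by
      rw [Int.add_mul_emod_self_left]
      exact Int.emod_eq_of_lt (by linarith) (by linarith)
    rwa [← e2] at h4
  rw [h3]
  ring

/-- a repetition in the digits gives a good rational approximation -/
theorem approx (b : ℕ) (hb : 2 ≤ b) (x : ℝ) (i j n : ℕ)
    (h : ∀ t < n, dg b x (i + t + 1) = dg b x (j + t + 1)) :
    |((b : ℝ) ^ j - (b : ℝ) ^ i) * x - ((⌊x * (b : ℝ) ^ j⌋ - ⌊x * (b : ℝ) ^ i⌋ : ℤ) : ℝ)| * (b : ℝ) ^ n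
      ≤ 1 := by
  have hb0 : (0 : ℝ) < b := by positivity
  have key : ∀ k ≤ n, ⌊x * (b : ℝ) ^ (j + k)⌋ - ⌊x * (b : ℝ) ^ (i + k)⌋ =
      (b : ℤ) ^ k * (⌊x * (b : ℝ) ^ j⌋ - ⌊x * (b : ℝ) ^ i⌋) := by
    intro k
    induction k with
    | zero => intro _; simp
    | succ k ih =>
      intro hk
      have h1 := ih (by omega)
      have h2 := h k (by omega)
      rw [← Nat.add_assoc, ← Nat.add_assoc, floor_succ b hb x (j + k), floor_succ b hb x (i + k), h2,
        pow_succ]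
      linear_combination (b : ℤ) * h1
  have h1 := key n le_rfl
  have h2 : ((⌊x * (b : ℝ) ^ (j + n)⌋ : ℤ) : ℝ) - ((⌊x * (b : ℝ) ^ (i + n)⌋ : ℤ) : ℝ) =
      (b : ℝ) ^ n * ((⌊x * (b : ℝ) ^ j⌋ - ⌊x * (b : ℝ) ^ i⌋ : ℤ) : ℝ) := by exact_mod_cast h1
  have h3 := Int.floor_le (x * (b : ℝ) ^ (j + n))
  have h4 := Int.lt_floor_add_one (x * (b : ℝ) ^ (j + n))
  have h5 := Int.floor_le (x * (b : ℝ) ^ (i + n))
  have h6 := Int.lt_floor_add_one (x * (b : ℝ) ^ (i + n))
  have e1 : x * (b : ℝ) ^ (j + n) = x * (b : ℝ) ^ j * (b : ℝ) ^ n := by rw [pow_add]; ring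
  have e2 : x * (b : ℝ) ^ (i + n) = x * (b : ℝ) ^ i * (b : ℝ) ^ n := by rw [pow_add]; ring
  have hbn : (0 : ℝ) < (b : ℝ) ^ n := by positivity
  have e3 : ∀ z : ℝ, |z| * (b : ℝ) ^ n = |z * (b : ℝ) ^ n| := fun z => by
    rw [abs_mul, abs_of_pos hbn]
  rw [e3, abs_le]
  rw [e1] at h3 h4
  rw [e2] at h5 h6
  have h7 : (((b : ℝ) ^ j - (b : ℝ) ^ i) * x - ((⌊x * (b : ℝ) ^ j⌋ - ⌊x * (b : ℝ) ^ i⌋ : ℤ) : ℝ)) * (b : ℝ) ^ n
      = x * (b : ℝ) ^ j * (b : ℝ) ^ n - x * (b : ℝ) ^ i * (b : ℝ) ^ n -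
        (((⌊x * (b : ℝ) ^ (j + n)⌋ : ℤ) : ℝ) - ((⌊x * (b : ℝ) ^ (i + n)⌋ : ℤ) : ℝ)) := by
    rw [h2]; ring
  rw [h7]
  rw [e1, e2]
  constructor <;> linarith

theorem st_step {Q : Type} (δ : Q → ℤ → Q) (s : ℕ → ℤ) (q₀ : Q) (A i : ℕ) :
    st δ s q₀ A (i + 1) = δ (st δ s q₀ A i) (s (A + i + 1)) := rfl

/-- a correct prediction during a long time gives a repetition -/
theorem repetition {Q : Type} [Fintype Q] (δ : Q → ℤ → Q) (g : Q → ℤ) (s : ℕ → ℤ) (q₀ : Q) (A u v : ℕ)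
    (huv : u + Fintype.card Q ≤ v)
    (h : ∀ i, u ≤ i → i < v → g (st δ s q₀ A i) = s (A + i + 1)) :
    ∃ i j : ℕ, u ≤ i ∧ i < j ∧ j ≤ u + Fintype.card Q ∧
      ∀ t < v - j, s (A + i + t + 1) = s (A + j + t + 1) := by
  classical
  have hc : (Finset.univ : Finset Q).card < (Icc u (u + Fintype.card Q)).card := by
    rw [Finset.card_univ, Nat.card_Icc]
    omega
  obtain ⟨i, hi, j, hj, hne, hij⟩ := Finset.exists_ne_map_eq_of_card_lt_of_maps_to hc
    (f := st δ s q₀ A) (fun _ _ => Finset.mem_coe.2 (Finset.mem_univ _))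
  rw [mem_Icc] at hi hj
  have main : ∀ i j : ℕ, u ≤ i → i < j → j ≤ u + Fintype.card Q → st δ s q₀ A i = st δ s q₀ A j →
      ∃ i j : ℕ, u ≤ i ∧ i < j ∧ j ≤ u + Fintype.card Q ∧
      ∀ t < v - j, s (A + i + t + 1) = s (A + j + t + 1) := by
    intro i j hi hij hj hst
    refine ⟨i, j, hi, hij, hj, ?_⟩
    have key : ∀ t ≤ v - j, st δ s q₀ A (i + t) = st δ s q₀ A (j + t) ∧
        (t < v - j → s (A + i + t + 1) = s (A + j + t + 1)) := by
      intro t
      induction t with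
      | zero =>
        intro _
        refine ⟨hst, fun ht => ?_⟩
        have h1 := h i hi (by omega)
        have h2 := h j (by omega) (by omega)
        rw [hst] at h1
        rw [Nat.add_zero, Nat.add_zero, ← h1, ← h2]
      | succ t ih =>
        intro ht
        obtain ⟨h1, h2⟩ := ih (by omega)
        have h3 := h2 (by omega)
        have h4 : st δ s q₀ A (i + (t + 1)) = st δ s q₀ A (j + (t + 1)) := by
          rw [← Nat.add_assoc, ← Nat.add_assoc, st_step, st_step, h1]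
          congr 1
          rw [← Nat.add_assoc, ← Nat.add_assoc]
          exact h3
        refine ⟨h4, fun ht2 => ?_⟩
        have h5 := h (i + (t + 1)) (by omega) (by omega)
        have h6 := h (j + (t + 1)) (by omega) (by omega)
        rw [h4] at h5
        have e5 : A + i + (t + 1) + 1 = A + (i + (t + 1)) + 1 := by ring
        have e6 : A + j + (t + 1) + 1 = A + (j + (t + 1)) + 1 := by ring
        rw [e5, e6, ← h5, ← h6]
    exact fun t ht => (key t ht.le).2 ht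
  rcases lt_or_gt_of_ne hne with h1 | h1
  · exact main i j hi.1 h1 hj.2 hij
  · exact main j i hj.1 h1 hi.2 hij.symm

/-- the length of an interval without wrong predictions -/
theorem segment (b : ℕ) (hb : 2 ≤ b) (x κ c : ℝ) (hκ : 0 < κ) (hc : 0 < c)
    (hx : ∀ q : ℕ, 1 ≤ q → ∀ p : ℤ, c * (q : ℝ) ^ (-κ) ≤ |q * x - p|)
    {Q : Type} [Fintype Q] (δ : Q → ℤ → Q) (g : Q → ℤ) (q₀ : Q) (A u v : ℕ)
    (h : ∀ i, u ≤ i → i < v → g (st δ (dg b x) q₀ A i) = dg b x (A + i + 1)) :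
    (A + v : ℝ) ≤ (1 + κ) * (A + u + Fintype.card Q) + max 0 (-Real.log c / Real.log 2) := by
  have hK : 0 ≤ max 0 (-Real.log c / Real.log 2) := le_max_left _ _
  have hS : (0 : ℝ) ≤ Fintype.card Q := Nat.cast_nonneg _
  have hA : (0 : ℝ) ≤ A := Nat.cast_nonneg _
  have hu : (0 : ℝ) ≤ u := Nat.cast_nonneg _
  by_cases huv : u + Fintype.card Q ≤ v
  · obtain ⟨i, j, hi, hij, hj, hrep⟩ := repetition δ g (dg b x) q₀ A u v huv h
    have hjv : j ≤ v := hj.trans huv
    have h1 := approx b hb x (A + i) (A + j) (v - j) hrep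
    have hb1 : (1 : ℝ) < b := by exact_mod_cast (show 1 < b by omega)
    have hb0 : (0 : ℝ) < b := by linarith
    -- the denominator
    have hpow : b ^ (A + i) < b ^ (A + j) := Nat.pow_lt_pow_right (by omega) (by omega)
    set q : ℕ := b ^ (A + j) - b ^ (A + i) with hq
    have hq1 : 1 ≤ q := by omega
    have hqr : (q : ℝ) = (b : ℝ) ^ (A + j) - (b : ℝ) ^ (A + i) := by
      rw [hq, Nat.cast_sub hpow.le]
      push_cast
      rfl
    have hqle : (q : ℝ) ≤ (b : ℝ) ^ (A + j) := by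
      rw [hqr]
      have : (0 : ℝ) ≤ (b : ℝ) ^ (A + i) := by positivity
      linarith
    have hq0 : (0 : ℝ) < q := by exact_mod_cast hq1
    have h2 := hx q hq1 (⌊x * (b : ℝ) ^ (A + j)⌋ - ⌊x * (b : ℝ) ^ (A + i)⌋)
    rw [← hqr] at h1
    have hbn : (0 : ℝ) < (b : ℝ) ^ (v - j) := by positivity
    have h3 : c * (q : ℝ) ^ (-κ) * (b : ℝ) ^ (v - j) ≤ 1 :=
      (mul_le_mul_of_nonneg_right h2 hbn.le).trans h1
    -- logarithms
    have hqκ : (0 : ℝ) < (q : ℝ) ^ (-κ) := Real.rpow_pos_of_pos hq0 _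
    have h4 : Real.log (c * (q : ℝ) ^ (-κ) * (b : ℝ) ^ (v - j)) ≤ 0 :=
      Real.log_nonpos (by positivity) h3
    rw [Real.log_mul (by positivity) hbn.ne', Real.log_mul hc.ne' hqκ.ne', Real.log_rpow hq0,
      Real.log_pow] at h4
    have h5 : Real.log q ≤ (A + j : ℕ) * Real.log b := by
      rw [← Real.log_pow]
      exact Real.log_le_log hq0 hqle
    have hlb : Real.log 2 ≤ Real.log b := Real.log_le_log (by norm_num) (by exact_mod_cast hb)
    have hl2 : 0 < Real.log 2 := Real.log_pos (by norm_num)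
    have hlb0 : 0 < Real.log b := by linarith
    have h6 : ((v - j : ℕ) : ℝ) = v - j := by rw [Nat.cast_sub hjv]
    rw [h6] at h4
    push_cast at h5
    have h7 : (v - j : ℝ) * Real.log b ≤ κ * ((A + j) * Real.log b) - Real.log c := by
      have := mul_le_mul_of_nonneg_left h5 hκ.le
      linarith
    have h8 : -Real.log c ≤ max 0 (-Real.log c / Real.log 2) * Real.log b := by
      have e1 : -Real.log c = -Real.log c / Real.log 2 * Real.log 2 := by field_simp
      calc -Real.log c = -Real.log c / Real.log 2 * Real.log 2 := e1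
        _ ≤ max 0 (-Real.log c / Real.log 2) * Real.log 2 :=
            mul_le_mul_of_nonneg_right (le_max_right _ _) hl2.le
        _ ≤ _ := mul_le_mul_of_nonneg_left hlb hK
    have h9 : (v - j : ℝ) ≤ κ * (A + j) + max 0 (-Real.log c / Real.log 2) := by
      have h10 : (v - j : ℝ) * Real.log b ≤
          (κ * (A + j) + max 0 (-Real.log c / Real.log 2)) * Real.log b := by
        rw [add_mul]
        linarith
      exact le_of_mul_le_mul_right h10 hlb0
    have hjr : (j : ℝ) ≤ u + Fintype.card Q := by exact_mod_cast hj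
    nlinarith
  · push Not at huv
    have h1 : (v : ℝ) ≤ u + Fintype.card Q := by exact_mod_cast huv.le
    nlinarith [mul_nonneg hκ.le hS, mul_nonneg hκ.le hA, mul_nonneg hκ.le hu]

theorem err_zero {Q : Type} [Fintype Q] (δ : Q → ℤ → Q) (g : Q → ℤ) (s : ℕ → ℤ) (q₀ : Q) (A : ℕ) :
    err δ g s q₀ A 0 = 0 := by
  unfold err
  simp

theorem err_succ {Q : Type} [Fintype Q] (δ : Q → ℤ → Q) (g : Q → ℤ) (s : ℕ → ℤ) (q₀ : Q) (A n : ℕ) :
    err δ g s q₀ A (n + 1) = err δ g s q₀ A n +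
      (if g (st δ s q₀ A n) ≠ s (A + n + 1) then 1 else 0) := by
  unfold err
  rw [Finset.range_add_one, Finset.filter_insert]
  split_ifs with h
  · rw [Finset.card_insert_of_notMem (by simp)]
  · rfl

/-- the growth between errors -/
theorem growth (b : ℕ) (hb : 2 ≤ b) (x κ c : ℝ) (hκ : 0 < κ) (hc : 0 < c)
    (hx : ∀ q : ℕ, 1 ≤ q → ∀ p : ℤ, c * (q : ℝ) ^ (-κ) ≤ |q * x - p|)
    {Q : Type} [Fintype Q] (δ : Q → ℤ → Q) (g : Q → ℤ) (q₀ : Q) (A : ℕ) (α : ℝ)
    (hα : α * κ = (1 + κ) * (Fintype.card Q + 1) + max 0 (-Real.log c / Real.log 2)) (n : ℕ) :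
    (A + n : ℝ) + α ≤ (1 + κ) ^ (err δ g (dg b x) q₀ A n + 1) * (A + α) := by
  have hK : 0 ≤ max 0 (-Real.log c / Real.log 2) := le_max_left _ _
  have hS : (0 : ℝ) ≤ Fintype.card Q := Nat.cast_nonneg _
  have hA : (0 : ℝ) ≤ A := Nat.cast_nonneg _
  -- `u` is the place after the last error
  have key : ∀ n : ℕ, ∃ u ≤ n, (∀ i, u ≤ i → i < n →
      g (st δ (dg b x) q₀ A i) = dg b x (A + i + 1)) ∧
      (A + u : ℝ) + α ≤ (1 + κ) ^ (err δ g (dg b x) q₀ A n) * (A + α) + (if u = 0 then 0 else 1) := by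
    intro n
    induction n with
    | zero =>
      refine ⟨0, le_rfl, fun i _ h => absurd h (Nat.not_lt_zero _), ?_⟩
      rw [err_zero]
      simp
    | succ n ih =>
      obtain ⟨u, hu, h1, h2⟩ := ih
      by_cases h : g (st δ (dg b x) q₀ A n) ≠ dg b x (A + n + 1)
      · refine ⟨n + 1, le_rfl, fun i hi hi' => by omega, ?_⟩
        rw [err_succ, if_pos h, if_neg (Nat.succ_ne_zero n), pow_succ]
        have h3 := segment b hb x κ c hκ hc hx δ g q₀ A u n h1
        push_cast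
        have h4 : (if u = 0 then (0 : ℝ) else 1) ≤ 1 := by split_ifs <;> norm_num
        nlinarith
      · have h' : g (st δ (dg b x) q₀ A n) = dg b x (A + n + 1) := by
          by_contra hne
          exact h hne
        refine ⟨u, by omega, fun i hi hi' => ?_, ?_⟩
        · rcases Nat.lt_succ_iff_lt_or_eq.1 hi' with h3 | h3
          · exact h1 i hi h3
          · rw [h3]; exact h'
        · rw [err_succ, if_neg h, Nat.add_zero]
          exact h2
  obtain ⟨u, hu, h1, h2⟩ := key n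
  have h3 := segment b hb x κ c hκ hc hx δ g q₀ A u n h1
  have h4 : (if u = 0 then (0 : ℝ) else 1) ≤ 1 := by split_ifs <;> norm_num
  rw [pow_succ]
  nlinarith

/-- the main inequality -/
theorem main (b : ℕ) (hb : 2 ≤ b) (x κ c : ℝ) (hκ : 0 < κ) (hc : 0 < c)
    (hx : ∀ q : ℕ, 1 ≤ q → ∀ p : ℤ, c * (q : ℝ) ^ (-κ) ≤ |q * x - p|)
    {Q : Type} [Fintype Q] (δ : Q → ℤ → Q) (g : Q → ℤ) (q₀ : Q) (A n : ℕ) (hn : 0 < A + n) :
    (Real.log (A + n) - Real.log (A + Fintype.card Q)) / Real.log (1 + κ) -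
      (1 + Real.log (1 + (2 * (1 + κ) + max 0 (-Real.log c / Real.log 2)) / κ) / Real.log (1 + κ)) ≤
      err δ g (dg b x) q₀ A n := by
  have : Nonempty Q := ⟨q₀⟩
  have hK : 0 ≤ max 0 (-Real.log c / Real.log 2) := le_max_left _ _
  set K := max 0 (-Real.log c / Real.log 2) with hKdef
  have hS : (1 : ℝ) ≤ Fintype.card Q := by exact_mod_cast Fintype.card_pos (α := Q)
  have hA : (0 : ℝ) ≤ A := Nat.cast_nonneg _
  have hμ : 0 < Real.log (1 + κ) := Real.log_pos (by linarith)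
  set α : ℝ := ((1 + κ) * (Fintype.card Q + 1) + K) / κ with hα
  have hακ : α * κ = (1 + κ) * (Fintype.card Q + 1) + K := by
    rw [hα]; field_simp
  have h1 := growth b hb x κ c hκ hc hx δ g q₀ A α (by rw [hακ]) n
  have hα0 : 0 < α := by rw [hα]; positivity
  have h2 : (A : ℝ) + α ≤ (A + Fintype.card Q) * (1 + (2 * (1 + κ) + K) / κ) := by
    have e1 : α ≤ Fintype.card Q * ((2 * (1 + κ) + K) / κ) := by
      rw [hα, ← mul_div_assoc]
      apply div_le_div_of_nonneg_right _ hκ.le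
      nlinarith
    have e2 : 0 ≤ (2 * (1 + κ) + K) / κ := by positivity
    nlinarith
  have hn' : (0 : ℝ) < A + n := by exact_mod_cast hn
  have h3 : (A + n : ℝ) ≤ (1 + κ) ^ (err δ g (dg b x) q₀ A n + 1) *
      ((A + Fintype.card Q) * (1 + (2 * (1 + κ) + K) / κ)) := by
    have := mul_le_mul_of_nonneg_left h2
      (show (0 : ℝ) ≤ (1 + κ) ^ (err δ g (dg b x) q₀ A n + 1) by positivity)
    linarith
  have h4 := Real.log_le_log hn' h3
  have p1 : (0 : ℝ) < A + Fintype.card Q := by linarith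
  have p2 : (0 : ℝ) < 1 + (2 * (1 + κ) + K) / κ := by positivity
  rw [Real.log_mul (by positivity) (by positivity), Real.log_mul p1.ne' p2.ne', Real.log_pow] at h4
  push_cast at h4
  have h5 : (Real.log (A + n) - Real.log (A + Fintype.card Q) -
      Real.log (1 + (2 * (1 + κ) + K) / κ)) / Real.log (1 + κ) ≤ err δ g (dg b x) q₀ A n + 1 :=
    (div_le_iff₀ hμ).2 (by linarith)
  rw [sub_div] at h5
  linarith

end Pool.Agent.V60.FSP
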