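import Mathlib
import Pool.Agent.V60.FSP

/-! Finite-state prediction and relations `s (k + P) = s k`. -/

set_option autoImplicit false

namespace Pool.Agent.V60.FSA

open Finset
open Pool.Agent.V60.FSP (st err st_step repetition dg floor_succ)

/-- machines with few errors read almost periodic sequences -/
theorem fails_le (s : ℕ → ℤ) (S : ℕ) {Q : Type} [Fintype Q] (hQ : Fintype.card Q ≤ S)
    (τ : Q → ℤ → Q) (g : Q → ℤ) (q₀ : Q) (A n : ℕ) :
    ((Icc 1 (A + n)).filter (fun k => s (k + S.factorial) ≠ s k)).card ≤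
      A + S + (S.factorial + S + 1) * (err τ g s q₀ A n + S.factorial) := by
  classical
  set P := S.factorial with hP
  set E := (range n).filter (fun i => g (st τ s q₀ A i) ≠ s (A + i + 1)) with hE
  have hsub : (Icc 1 (A + n)).filter (fun k => s (k + P) ≠ s k) ⊆
      (Icc 1 (A + S)) ∪ (E ∪ Ico n (n + P)).biUnion (fun i => Icc (A + i + 1 - P) (A + i + 1 + S)) := by
    intro k hk
    rw [mem_filter, mem_Icc] at hk
    rw [mem_union]
    by_cases hkS : k ≤ A + S
    · left; exact mem_Icc.2 ⟨hk.1.1, hkS⟩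
    · right
      push Not at hkS
      rw [mem_biUnion]
      by_contra hcon
      push Not at hcon
      apply hk.2
      -- no errors near `k`
      have hno : ∀ i, k - S - 1 - A ≤ i → i < k + P - A → g (st τ s q₀ A i) = s (A + i + 1) := by
        intro i h1 h2
        by_contra hne
        by_cases hin : i < n
        · refine hcon i (mem_union_left _ (mem_filter.2 ⟨mem_range.2 hin, hne⟩)) (mem_Icc.2 ⟨by omega, by omega⟩)
        · refine hcon i (mem_union_right _ (mem_Ico.2 ⟨by omega, by omega⟩)) (mem_Icc.2 ⟨by omega, by omega⟩)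
      obtain ⟨i, j, hi, hij, hj, hrep⟩ := repetition τ g s q₀ A (k - S - 1 - A) (k + P - A) (by omega) hno
      obtain ⟨c, hc⟩ : (j - i) ∣ P := Nat.dvd_factorial (by omega) (by omega)
      have key : ∀ l : ℕ, l ≤ c → s (k + (j - i) * l) = s k := by
        intro l
        induction l with
        | zero => intro _; simp
        | succ l ih =>
          intro hl
          rw [← ih (by omega)]
          have h3 : (j - i) * (l + 1) ≤ P := by
            rw [hc]
            exact Nat.mul_le_mul_left _ hl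
          have h4 : (j - i) * (l + 1) = (j - i) * l + (j - i) := by ring
          have h5 := hrep (k + (j - i) * l - (A + i + 1)) (by omega)
          rw [show A + i + (k + (j - i) * l - (A + i + 1)) + 1 = k + (j - i) * l by omega,
            show A + j + (k + (j - i) * l - (A + i + 1)) + 1 = k + (j - i) * (l + 1) by omega] at h5
          exact h5.symm
      rw [hc]
      exact key c le_rfl
  refine (card_le_card hsub).trans ((card_union_le _ _).trans ?_)
  have h1 : (Icc 1 (A + S)).card = A + S := by rw [Nat.card_Icc]; omega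
  have h2 : ((E ∪ Ico n (n + P)).biUnion (fun i => Icc (A + i + 1 - P) (A + i + 1 + S))).card ≤
      (E ∪ Ico n (n + P)).card * (P + S + 1) := by
    refine card_biUnion_le_card_mul _ _ _ fun i _ => ?_
    rw [Nat.card_Icc]
    omega
  have h3 : (E ∪ Ico n (n + P)).card ≤ err τ g s q₀ A n + P := by
    refine (card_union_le _ _).trans ?_
    rw [Nat.card_Ico]
    have : E.card = err τ g s q₀ A n := rfl
    omega
  have h4 : (E ∪ Ico n (n + P)).card * (P + S + 1) ≤ (err τ g s q₀ A n + P) * (P + S + 1) :=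
    Nat.mul_le_mul_right _ h3
  rw [h1, Nat.mul_comm (P + S + 1)]
  omega

/-- passage to the limit -/
theorem transfer (s : ℕ → ℤ) (S A : ℕ) (f : ℕ → ℝ) (hf : Filter.Tendsto f Filter.atTop Filter.atTop)
    (c : ℝ) (hc : 0 < c) (N₀ : ℕ)
    (h : ∀ N : ℕ, N₀ ≤ N → c * f N ≤ ((Icc 1 N).filter (fun k => s (k + S.factorial) ≠ s k)).card) :
    ∃ c' : ℝ, 0 < c' ∧ ∃ N₁ : ℕ, ∀ (Q : Type) [Fintype Q], Fintype.card Q ≤ S →
      ∀ (τ : Q → ℤ → Q) (g : Q → ℤ) (q₀ : Q) (n : ℕ), N₁ ≤ A + n →
        c' * f (A + n) ≤ err τ g s q₀ A n := by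
  set K : ℝ := (S.factorial + S + 1 : ℝ) with hK
  have hK0 : 0 < K := by positivity
  obtain ⟨N₂, hN₂⟩ := Filter.eventually_atTop.1
    (hf.eventually_ge_atTop ((A + S + K * S.factorial) * 2 / c))
  refine ⟨c / (2 * K), by positivity, max N₀ N₂, fun Q _ hQ τ g q₀ n hn => ?_⟩
  have h1 := h (A + n) ((le_max_left _ _).trans hn)
  have h2 : (((Icc 1 (A + n)).filter (fun k => s (k + S.factorial) ≠ s k)).card : ℝ) ≤
      A + S + K * (err τ g s q₀ A n + S.factorial) := by
    rw [hK]
    exact_mod_cast fails_le s S hQ τ g q₀ A n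
  have h3 := hN₂ (A + n) ((le_max_right _ _).trans hn)
  rw [div_le_iff₀ hc] at h3
  rw [div_mul_eq_mul_div, div_le_iff₀ (by positivity)]
  nlinarith

/-- the function `(log N)^3 / (log log N)^5` -/
theorem tendsto_log : Filter.Tendsto (fun N : ℕ => (Real.log N) ^ 3 / (Real.log (Real.log N)) ^ 5)
    Filter.atTop Filter.atTop := by
  have h1 : Filter.Tendsto (fun N : ℕ => Real.log (N : ℝ)) Filter.atTop Filter.atTop :=
    Real.tendsto_log_atTop.comp tendsto_natCast_atTop_atTop
  have h2 : Filter.Tendsto (fun y : ℝ => y ^ 3 / (Real.log y) ^ 5) Filter.atTop Filter.atTop := by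
    have h3 := (Real.isLittleO_pow_log_id_atTop (n := 5)).bound (one_pos)
    refine Filter.tendsto_atTop_mono' _ ?_ Filter.tendsto_id
    filter_upwards [h3, Filter.eventually_gt_atTop (Real.exp 1), Filter.eventually_ge_atTop 1] with y hy hy1 hy2
    have hl : 1 < Real.log y := by
      rw [Real.lt_log_iff_exp_lt (by linarith)]
      exact hy1
    have hp : 0 < (Real.log y) ^ 5 := by positivity
    rw [one_mul, Real.norm_of_nonneg hp.le, id, Real.norm_of_nonneg (by linarith)] at hy
    rw [id, le_div_iff₀ hp]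
    have : y * (Real.log y) ^ 5 ≤ y * y := mul_le_mul_of_nonneg_left hy (by linarith)
    nlinarith [mul_nonneg (by linarith : (0 : ℝ) ≤ y) (by linarith : (0 : ℝ) ≤ y)]
  exact h2.comp h1

/-- the digits of a real number -/
theorem hasSum_digits (b : ℕ) (hb : 2 ≤ b) (x : ℝ) :
    HasSum (fun k : ℕ => ((if k = 0 then ⌊x⌋ else dg b x k : ℤ) : ℝ) / (b : ℝ) ^ k) x := by
  have hb1 : (1 : ℝ) < b := by exact_mod_cast (show 1 < b by omega)
  have hb0 : (0 : ℝ) < b := by linarith
  have hpart : ∀ n : ℕ, ∑ k ∈ range (n + 1), ((if k = 0 then ⌊x⌋ else dg b x k : ℤ) : ℝ) / (b : ℝ) ^ k =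
      (⌊x * (b : ℝ) ^ n⌋ : ℝ) / (b : ℝ) ^ n := by
    intro n
    induction n with
    | zero => simp
    | succ n ih =>
      rw [sum_range_succ, ih, if_neg (Nat.succ_ne_zero n)]
      have h1 := floor_succ b hb x n
      have h2 : ((⌊x * (b : ℝ) ^ (n + 1)⌋ : ℤ) : ℝ) = b * ((⌊x * (b : ℝ) ^ n⌋ : ℤ) : ℝ) + (dg b x (n + 1) : ℝ) := by
        rw [h1]; push_cast; ring
      rw [h2]
      field_simp
      ring
  have hsum : Summable (fun k : ℕ => ((if k = 0 then ⌊x⌋ else dg b x k : ℤ) : ℝ) / (b : ℝ) ^ k) := by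
    have hg : Summable (fun k : ℕ => (|(⌊x⌋ : ℝ)| + b) * (1 / (b : ℝ)) ^ k) :=
      (summable_geometric_of_lt_one (by positivity) (by rw [div_lt_one hb0]; exact hb1)).mul_left _
    refine Summable.of_norm_bounded hg fun k => ?_
    rw [norm_div, Real.norm_eq_abs, Real.norm_of_nonneg (by positivity : (0 : ℝ) ≤ (b : ℝ) ^ k),
      one_div, inv_pow, ← div_eq_mul_inv]
    apply div_le_div_of_nonneg_right _ (by positivity)
    split_ifs
    · linarith
    · have h3 : 0 ≤ dg b x k := Int.emod_nonneg _ (by omega)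
      have h4 : dg b x k < b := Int.emod_lt_of_pos _ (by omega)
      have h5 : (0 : ℝ) ≤ (dg b x k : ℝ) := by exact_mod_cast h3
      have h6 : (dg b x k : ℝ) ≤ b := by exact_mod_cast h4.le
      rw [abs_of_nonneg h5]
      have := abs_nonneg (⌊x⌋ : ℝ)
      linarith
  have hlim : Filter.Tendsto (fun n : ℕ => ∑ k ∈ range (n + 1),
      ((if k = 0 then ⌊x⌋ else dg b x k : ℤ) : ℝ) / (b : ℝ) ^ k) Filter.atTop (nhds x) := by
    simp only [hpart]
    have h1 : Filter.Tendsto (fun n : ℕ => x - (1 / (b : ℝ)) ^ n) Filter.atTop (nhds x) := by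
      have := (tendsto_pow_atTop_nhds_zero_of_lt_one (r := 1 / (b : ℝ)) (by positivity)
        (by rw [div_lt_one hb0]; exact hb1)).const_sub x
      rwa [sub_zero] at this
    refine tendsto_of_tendsto_of_tendsto_of_le_of_le h1 tendsto_const_nhds (fun n => ?_) (fun n => ?_)
    · have hbn : (0 : ℝ) < (b : ℝ) ^ n := by positivity
      show x - (1 / (b : ℝ)) ^ n ≤ (⌊x * (b : ℝ) ^ n⌋ : ℝ) / (b : ℝ) ^ n
      rw [le_div_iff₀ hbn, sub_mul, one_div, inv_pow, inv_mul_cancel₀ hbn.ne']
      linarith [Int.lt_floor_add_one (x * (b : ℝ) ^ n)]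
    · have hbn : (0 : ℝ) < (b : ℝ) ^ n := by positivity
      show (⌊x * (b : ℝ) ^ n⌋ : ℝ) / (b : ℝ) ^ n ≤ x
      rw [div_le_iff₀ hbn]
      exact Int.floor_le _
  have h7 := hsum.hasSum
  have h8 := (Filter.tendsto_add_atTop_iff_nat 1).2 h7.tendsto_sum_nat
  rw [tendsto_nhds_unique h8 hlim] at h7
  exact h7

end Pool.Agent.V60.FSA
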