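import Mathlib
import Pool.Agent.V60.FSP

/-! Machines reading a sequence with few periodic windows. -/

set_option autoImplicit false

namespace Pool.Agent.V60.LamMach

open Finset
open Pool.Agent.V60.FSP (st err st_step repetition)

/-- the window `(z - W, z]` is periodic with a period at most `S` -/
def BadZ (s : ℕ → ℤ) (S W z : ℕ) : Prop :=
  ∃ q, 1 ≤ q ∧ q ≤ S ∧ ∀ m, z < m + W → m + q ≤ z → s (m + q) = s m

open Classical in
/-- few windows are periodic -/
def FewBad (s : ℕ → ℤ) : Prop := ∀ S : ℕ, ∀ η : ℝ, 0 < η → ∃ W : ℕ, 1 ≤ W ∧ ∃ X₀ : ℕ, ∀ X : ℕ,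
  X₀ ≤ X → (((range (3 * X + 1)).filter (fun z => W ≤ z ∧ BadZ s S W z)).card : ℝ) ≤ η * X

open Classical in
/-- counting -/
theorem count (s : ℕ → ℤ) (hF : FewBad s) (S : ℕ) (B : ℝ) (hB : 0 ≤ B) :
    ∃ W : ℕ, 1 ≤ W ∧ ∃ δ : ℝ, 0 < δ ∧ ∃ n₀ : ℕ, ∀ A n : ℕ, n₀ ≤ n → (A : ℝ) ≤ B * n →
      ∀ (E : Finset ℕ) (t : ℕ), t ≤ S →
      (∀ z, A + W + S ≤ z → z ≤ A + n → ¬ BadZ s S W (z - t) → ∃ e ∈ E, e ≤ z ∧ z < e + (W + S)) →
      δ * n ≤ E.card := by
  obtain ⟨W, hW, X₀, hX⟩ := hF S (1 / (1 + B)) (by positivity)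
  refine ⟨W, hW, 1 / (3 * (W + S)), by positivity, 3 * X₀ + 3 * (W + S) + 6, fun A n hn hA E t ht hE => ?_⟩
  set X := (A + n) / 3 + 1 with hXdef
  have hX3 : A + n ≤ 3 * X := by omega
  have hXle : (X : ℝ) ≤ (A + n) / 3 + 1 := by
    have : 3 * (X - 1) ≤ A + n := by omega
    have h2 : (3 * ((X : ℝ) - 1)) ≤ A + n := by
      have h3 : ((3 * (X - 1) : ℕ) : ℝ) ≤ ((A + n : ℕ) : ℝ) := by exact_mod_cast this
      rw [Nat.cast_mul, Nat.cast_sub (by omega)] at h3
      push_cast at h3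
      exact h3
    linarith
  have hbad := hX X (by omega)
  set Bad := (range (3 * X + 1)).filter (fun z => W ≤ z ∧ BadZ s S W z) with hBad
  -- the good places
  set G := (Icc (A + W + S) (A + n)).filter (fun z => ¬ BadZ s S W (z - t)) with hG
  have hGE : G ⊆ E.biUnion (fun e => Ico e (e + (W + S))) := by
    intro z hz
    rw [hG, mem_filter, mem_Icc] at hz
    obtain ⟨e, he, h1, h2⟩ := hE z hz.1.1 hz.1.2 hz.2
    rw [mem_biUnion]
    exact ⟨e, he, mem_Ico.2 ⟨h1, h2⟩⟩
  have hGc : (G.card : ℝ) ≤ E.card * (W + S) := by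
    have h1 := (card_le_card hGE).trans card_biUnion_le
    have h2 : ∑ e ∈ E, (Ico e (e + (W + S))).card = E.card * (W + S) := by
      rw [sum_congr rfl fun e _ => show (Ico e (e + (W + S))).card = W + S by
        rw [Nat.card_Ico]; omega]
      rw [sum_const, smul_eq_mul]
    rw [h2] at h1
    exact_mod_cast h1
  -- the bad places
  have hB' : ((Icc (A + W + S) (A + n)).filter (fun z => BadZ s S W (z - t))).card ≤ Bad.card := by
    apply card_le_card_of_injOn (fun z => z - t)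
    · intro z hz
      rw [mem_coe, mem_filter, mem_Icc] at hz
      rw [hBad, mem_coe, mem_filter, mem_range]
      show z - t < 3 * X + 1 ∧ W ≤ z - t ∧ BadZ s S W (z - t)
      exact ⟨by omega, by omega, hz.2⟩
    · intro z hz z' hz' h
      rw [mem_coe, mem_filter, mem_Icc] at hz hz'
      have h' : z - t = z' - t := h
      omega
  have hsum : (Icc (A + W + S) (A + n)).card =
      ((Icc (A + W + S) (A + n)).filter (fun z => BadZ s S W (z - t))).card + G.card := by
    rw [hG]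
    exact (card_filter_add_card_filter_not (s := Icc (A + W + S) (A + n)) (fun z => BadZ s S W (z - t))).symm
  rw [Nat.card_Icc] at hsum
  have h1 : n + 1 ≤ W + S + (Bad.card + G.card) := by omega
  have h1r : (n : ℝ) + 1 ≤ W + S + (Bad.card + G.card) := by exact_mod_cast h1
  have h2 : (1 : ℝ) / (1 + B) * X ≤ n / 3 + 1 := by
    have h3 : (1 : ℝ) / (1 + B) * X ≤ 1 / (1 + B) * ((A + n) / 3 + 1) :=
      mul_le_mul_of_nonneg_left hXle (by positivity)
    have h4 : (1 : ℝ) / (1 + B) * ((A + n) / 3 + 1) ≤ n / 3 + 1 := by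
      rw [one_div, inv_mul_le_iff₀ (by positivity)]
      have hn0 : (0 : ℝ) ≤ n := Nat.cast_nonneg n
      nlinarith
    exact h3.trans h4
  have hn' : (3 * X₀ + 3 * (W + S) + 6 : ℝ) ≤ n := by exact_mod_cast hn
  have hX0 : (0 : ℝ) ≤ X₀ := Nat.cast_nonneg _
  have h5 : (n : ℝ) / 3 ≤ E.card * (W + S) := by linarith
  have hWS : (0 : ℝ) < 3 * (W + S) := by
    have : (1 : ℝ) ≤ W := by exact_mod_cast hW
    positivity
  rw [one_div, inv_mul_le_iff₀ hWS]
  linarith

/-- machines which read forwards -/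
theorem forward (s : ℕ → ℤ) (hF : FewBad s) (S : ℕ) (B : ℝ) (hB : 0 ≤ B) :
    ∃ δ : ℝ, 0 < δ ∧ ∃ n₀ : ℕ, ∀ (Q : Type) [Fintype Q], Fintype.card Q ≤ S →
      ∀ (τ : Q → ℤ → Q) (g : Q → ℤ) (q₀ : Q) (A n : ℕ), n₀ ≤ n → (A : ℝ) ≤ B * n →
        δ * n ≤ err τ g s q₀ A n := by
  obtain ⟨W, hW, δ, hδ, n₀, h⟩ := count s hF S B hB
  refine ⟨δ, hδ, n₀, fun Q _ hQ τ g q₀ A n hn hA => ?_⟩
  classical
  have key := h A n hn hA (((range n).filter (fun i => g (st τ s q₀ A i) ≠ s (A + i + 1))).image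
    (fun i => A + i + 1)) 0 (Nat.zero_le S) ?_
  · refine key.trans ?_
    unfold err
    exact_mod_cast card_image_le
  · intro z hz1 hz2 hbad
    by_contra hcon
    push Not at hcon
    apply hbad
    rw [Nat.sub_zero]
    obtain ⟨i, j, hi, hij, hj, hrep⟩ := repetition τ g s q₀ A (z - A - W - S) (z - A) (by omega) (by
      intro i h1 h2
      by_contra hne
      have h3 := hcon (A + i + 1) (mem_image.2 ⟨i, mem_filter.2 ⟨mem_range.2 (by omega), hne⟩, rfl⟩)
        (by omega)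
      omega)
    refine ⟨j - i, by omega, by omega, fun m hm1 hm2 => ?_⟩
    have h4 := hrep (m - (A + i + 1)) (by omega)
    rw [show A + i + (m - (A + i + 1)) + 1 = m by omega,
      show A + j + (m - (A + i + 1)) + 1 = m + (j - i) by omega] at h4
    exact h4.symm

open Classical in
/-- windows without wrong guesses, machines which read forwards -/
theorem windows (s : ℕ → ℤ) (hF : FewBad s) (S : ℕ) (B ε : ℝ) (hB : 0 ≤ B) (hε : 0 < ε) :
    ∃ L n₀ : ℕ, ∀ (Q : Type) [Fintype Q], Fintype.card Q ≤ S →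
      ∀ (τ : Q → ℤ → Q) (g : Q → ℤ) (q₀ : Q) (A n : ℕ), n₀ ≤ n → (A : ℝ) ≤ B * n →
        (((range n).filter (fun u => ∀ i, u ≤ i → i < u + L → i < n →
          g (st τ s q₀ A i) = s (A + i + 1))).card : ℝ) ≤ ε * n := by
  obtain ⟨W, hW, X₀, hX⟩ := hF S (ε / (1 + B)) (by positivity)
  refine ⟨W + S, 3 * X₀ + ⌈(3 * (W + S) + 3 * ε + 1) / ε⌉₊, fun Q _ hQ τ g q₀ A n hn hA => ?_⟩
  set X := (A + n) / 3 + 1 with hXdef
  have hX3 : A + n ≤ 3 * X := by omega
  have hXle : (X : ℝ) ≤ (A + n) / 3 + 1 := by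
    have : 3 * (X - 1) ≤ A + n := by omega
    have h2 : (3 * ((X : ℝ) - 1)) ≤ A + n := by
      have h3 : ((3 * (X - 1) : ℕ) : ℝ) ≤ ((A + n : ℕ) : ℝ) := by exact_mod_cast this
      rw [Nat.cast_mul, Nat.cast_sub (by omega)] at h3
      push_cast at h3
      exact h3
    linarith
  have hbad := hX X (by omega)
  set Bad := (range (3 * X + 1)).filter (fun z => W ≤ z ∧ BadZ s S W z) with hBad
  set G := (range n).filter (fun u => ∀ i, u ≤ i → i < u + (W + S) → i < n →
          g (st τ s q₀ A i) = s (A + i + 1)) with hG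
  have h1 : G ⊆ (G.filter (fun u => u + (W + S) ≤ n)) ∪ Ico (n - (W + S)) n := by
    intro u hu
    rw [mem_union]
    by_cases h : u + (W + S) ≤ n
    · left; exact mem_filter.2 ⟨hu, h⟩
    · right
      have := mem_range.1 (mem_filter.1 hu).1
      exact mem_Ico.2 ⟨by omega, this⟩
  have h2 : (G.filter (fun u => u + (W + S) ≤ n)).card ≤ Bad.card := by
    apply card_le_card_of_injOn (fun u => A + u + (W + S))
    · intro u hu
      rw [mem_coe, mem_filter, hG, mem_filter, mem_range] at hu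
      rw [hBad, mem_coe, mem_filter, mem_range]
      show A + u + (W + S) < 3 * X + 1 ∧ W ≤ A + u + (W + S) ∧ BadZ s S W (A + u + (W + S))
      refine ⟨by omega, by omega, ?_⟩
      obtain ⟨i, j, hi, hij, hj, hrep⟩ := repetition τ g s q₀ A u (u + (W + S)) (by omega) (by
        intro i h3 h4
        exact hu.1.2 i h3 h4 (by omega))
      refine ⟨j - i, by omega, by omega, fun m hm1 hm2 => ?_⟩
      have h4 := hrep (m - (A + i + 1)) (by omega)
      rw [show A + i + (m - (A + i + 1)) + 1 = m by omega,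
        show A + j + (m - (A + i + 1)) + 1 = m + (j - i) by omega] at h4
      exact h4.symm
    · intro u _ u' _ h
      have h' : A + u + (W + S) = A + u' + (W + S) := h
      omega
  have h3 : G.card ≤ Bad.card + (W + S) := by
    refine (card_le_card h1).trans ((card_union_le _ _).trans ?_)
    rw [Nat.card_Ico]
    omega
  have h3r : (G.card : ℝ) ≤ Bad.card + (W + S) := by exact_mod_cast h3
  have hn' : (3 * (W + S) + 3 * ε + 1) / ε ≤ n := by
    have h4 : ⌈(3 * (W + S) + 3 * ε + 1) / ε⌉₊ ≤ n := by omega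
    exact (Nat.le_ceil _).trans (by exact_mod_cast h4)
  rw [div_le_iff₀ hε] at hn'
  have h5 : ε / (1 + B) * X ≤ ε * (n / 3 + 1) := by
    have h6 : ε / (1 + B) * X ≤ ε / (1 + B) * ((A + n) / 3 + 1) :=
      mul_le_mul_of_nonneg_left hXle (by positivity)
    have h7 : ε / (1 + B) * ((A + n) / 3 + 1) ≤ ε * (n / 3 + 1) := by
      rw [div_mul_eq_mul_div, mul_div_assoc]
      apply mul_le_mul_of_nonneg_left _ hε.le
      rw [div_le_iff₀ (by positivity)]
      have hn0 : (0 : ℝ) ≤ n := Nat.cast_nonneg n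
      nlinarith
    exact h6.trans h7
  have hWS : (0 : ℝ) ≤ (W : ℝ) + S := by positivity
  nlinarith

/-- machines which read backwards: the terms with the numbers `A + n, A + n - 1, …, A + 1` -/
theorem backward (s : ℕ → ℤ) (hF : FewBad s) (S : ℕ) (B : ℝ) (hB : 0 ≤ B) :
    ∃ δ : ℝ, 0 < δ ∧ ∃ n₀ : ℕ, ∀ (Q : Type) [Fintype Q], Fintype.card Q ≤ S →
      ∀ (τ : Q → ℤ → Q) (g : Q → ℤ) (q₀ : Q) (A n : ℕ), n₀ ≤ n → (A : ℝ) ≤ B * n →
        δ * n ≤ err τ g (fun k => s (A + n + 1 - k)) q₀ 0 n := by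
  obtain ⟨W, hW, δ, hδ, n₀, h⟩ := count s hF S B hB
  refine ⟨δ, hδ, n₀, fun Q _ hQ τ g q₀ A n hn hA => ?_⟩
  classical
  set r : ℕ → ℤ := fun k => s (A + n + 1 - k) with hr
  have key := h A n hn hA (((range n).filter (fun i => g (st τ r q₀ 0 i) ≠ r (0 + i + 1))).image
    (fun i => A + n - i)) S le_rfl ?_
  · refine key.trans ?_
    unfold err
    exact_mod_cast card_image_le
  · intro z hz1 hz2 hbad
    by_contra hcon
    push Not at hcon
    apply hbad
    -- the machine works on the window `(z - W - S, z]`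
    obtain ⟨i, j, hi, hij, hj, hrep⟩ := repetition τ g r q₀ 0 (A + n - z) (A + n - z + W + S) (by omega) (by
      intro i h1 h2
      by_contra hne
      have h3 := hcon (A + n - i) (mem_image.2 ⟨i, mem_filter.2 ⟨mem_range.2 (by omega), hne⟩, rfl⟩)
        (by omega)
      omega)
    refine ⟨j - i, by omega, by omega, fun m hm1 hm2 => ?_⟩
    have h4 := hrep (A + n - (m + (j - i)) - i) (by omega)
    rw [hr] at h4
    simp only at h4
    rw [show A + n + 1 - (0 + i + (A + n - (m + (j - i)) - i) + 1) = m + (j - i) by omega,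
      show A + n + 1 - (0 + j + (A + n - (m + (j - i)) - i) + 1) = m by omega] at h4
    exact h4

end Pool.Agent.V60.LamMach
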