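import Mathlib
import Pool.Agent.H807R2.Dav1

/-! Periodic windows have a large exponential sum at a rational phase. -/

set_option autoImplicit false

namespace Pool.Agent.V60.LamPer

open Finset
open Pool.Agent.H807R2.Dav (ee norm_ee ee_add ee_int ee_pow ee_zero)

lemma ee_nat_div (q k : ℕ) (hq : 1 ≤ q) : ∑ a ∈ range q, ee ((k : ℝ) * ((a : ℝ) / q)) =
    if q ∣ k then (q : ℂ) else 0 := by
  have hq0 : (q : ℝ) ≠ 0 := by exact_mod_cast (by omega : q ≠ 0)
  have e1 : ∀ a : ℕ, ee ((k : ℝ) * ((a : ℝ) / q)) = (ee ((k : ℝ) / q)) ^ a := by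
    intro a
    rw [← ee_pow]
    congr 1
    ring
  rw [sum_congr rfl fun a _ => e1 a]
  split_ifs with h
  · obtain ⟨c, rfl⟩ := h
    have : ee (((q * c : ℕ) : ℝ) / q) = 1 := by
      have e2 : (((q * c : ℕ) : ℝ) / q) = ((c : ℤ) : ℝ) := by
        push_cast
        field_simp
      rw [e2, ee_int]
    rw [this]
    simp
  · have hne : ee ((k : ℝ) / q) ≠ 1 := by
      intro h1
      unfold ee at h1
      rw [Complex.exp_eq_one_iff] at h1
      obtain ⟨m, hm⟩ := h1
      apply h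
      have hpi : (2 * Real.pi * Complex.I : ℂ) ≠ 0 := by
        simp [Real.pi_ne_zero, Complex.I_ne_zero]
      have h2 : (2 * Real.pi * Complex.I : ℂ) * (((k : ℝ) / q : ℝ) : ℂ) =
          (2 * Real.pi * Complex.I : ℂ) * ((m : ℝ) : ℂ) := by
        push_cast at hm ⊢
        linear_combination hm
      have h3 := mul_left_cancel₀ hpi h2
      have h4 : ((k : ℝ) / q) = (m : ℝ) := by exact_mod_cast h3
      rw [div_eq_iff hq0] at h4
      have h5 : (k : ℤ) = m * q := by exact_mod_cast h4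
      exact Int.natCast_dvd_natCast.1 ⟨m, by rw [h5]; ring⟩
    have hpow : (ee ((k : ℝ) / q)) ^ q = 1 := by
      rw [← ee_pow]
      have e2 : ((q : ℝ) * ((k : ℝ) / q)) = ((k : ℤ) : ℝ) := by
        push_cast
        field_simp
      rw [e2, ee_int]
    have h6 := mul_neg_geom_sum (ee ((k : ℝ) / q)) q
    rw [hpow, sub_self] at h6
    rcases mul_eq_zero.1 h6 with h7 | h7
    · exact absurd (sub_eq_zero.1 h7).symm hne
    · exact h7

/-- a window of length divisible by `q` on which `f` has period `q` -/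
theorem per (q W z : ℕ) (hq : 1 ≤ q) (hqW : q ∣ W) (hz : W ≤ z) (f : ℕ → ℂ)
    (hf : ∀ m, z < m + W → m + q ≤ z → f (m + q) = f m) (h1 : ‖f (z - W + 1)‖ = 1) :
    (W : ℝ) ≤ ∑ a ∈ range q, ‖∑ n ∈ Ioc (z - W) z, f n * ee ((n : ℝ) * ((a : ℝ) / q))‖ := by
  obtain ⟨M, rfl⟩ := hqW
  set n0 := z - q * M + 1 with hn0
  have hq0 : (q : ℝ) ≠ 0 := by exact_mod_cast (by omega : q ≠ 0)
  -- reindexing
  have hre : ∀ F : ℕ → ℂ, ∑ n ∈ Ioc (z - q * M) z, F n = ∑ k ∈ range (q * M), F (n0 + k) := by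
    intro F
    have e : Ioc (z - q * M) z = Ico n0 (n0 + q * M) := by
      ext n
      rw [mem_Ioc, mem_Ico]
      omega
    rw [e, sum_Ico_eq_sum_range]
    congr 1
    congr 1
    omega
  have hperiod : ∀ j : ℕ, j < M → f (n0 + q * j) = f n0 := by
    intro j
    induction j with
    | zero => intro _; simp
    | succ j ih =>
      intro hj
      have h2 : q * (j + 1) + q ≤ q * M := by
        have : q * (j + 1 + 1) ≤ q * M := Nat.mul_le_mul_left q (by omega)
        rw [Nat.mul_add q (j + 1) 1, mul_one] at this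
        exact this
      rw [show n0 + q * (j + 1) = n0 + q * j + q by ring, hf _ (by omega) (by
        have e3 : q * (j + 1) = q * j + q := by ring
        omega)]
      exact ih (by omega)
  have hmain : ∑ a ∈ range q, ee (-((n0 : ℝ) * ((a : ℝ) / q))) *
      ∑ n ∈ Ioc (z - q * M) z, f n * ee ((n : ℝ) * ((a : ℝ) / q)) = ((q * M : ℕ) : ℂ) * f n0 := by
    have e1 : ∀ a ∈ range q, ee (-((n0 : ℝ) * ((a : ℝ) / q))) *
        ∑ n ∈ Ioc (z - q * M) z, f n * ee ((n : ℝ) * ((a : ℝ) / q)) =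
        ∑ k ∈ range (q * M), f (n0 + k) * ee ((k : ℝ) * ((a : ℝ) / q)) := by
      intro a _
      rw [hre, mul_sum]
      apply sum_congr rfl
      intro k _
      have e2 : ee ((k : ℝ) * ((a : ℝ) / q)) = ee (-((n0 : ℝ) * ((a : ℝ) / q))) *
          ee (((n0 + k : ℕ) : ℝ) * ((a : ℝ) / q)) := by
        rw [← ee_add]
        congr 1
        push_cast
        ring
      rw [e2]
      ring
    rw [sum_congr rfl e1, sum_comm]
    have e3 : ∀ k ∈ range (q * M), ∑ a ∈ range q, f (n0 + k) * ee ((k : ℝ) * ((a : ℝ) / q)) =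
        if q ∣ k then f (n0 + k) * q else 0 := by
      intro k _
      rw [← mul_sum, ee_nat_div q k hq]
      split_ifs <;> simp
    rw [sum_congr rfl e3, ← sum_filter]
    have e4 : (range (q * M)).filter (fun k => q ∣ k) = (range M).image (fun j => q * j) := by
      ext k
      rw [mem_filter, mem_range, mem_image]
      constructor
      · rintro ⟨h2, j, rfl⟩
        exact ⟨j, mem_range.2 (Nat.lt_of_mul_lt_mul_left h2), rfl⟩
      · rintro ⟨j, hj, rfl⟩
        exact ⟨(Nat.mul_lt_mul_left (by omega)).2 (mem_range.1 hj), Dvd.intro j rfl⟩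
    rw [e4, sum_image (fun x _ y _ h => Nat.eq_of_mul_eq_mul_left (by omega) h)]
    rw [sum_congr rfl fun j hj => by rw [hperiod j (mem_range.1 hj)]]
    rw [sum_const, card_range, nsmul_eq_mul]
    push_cast
    ring
  calc ((q * M : ℕ) : ℝ) = ‖((q * M : ℕ) : ℂ) * f n0‖ := by
        rw [norm_mul, h1, mul_one, Complex.norm_natCast]
    _ = ‖∑ a ∈ range q, ee (-((n0 : ℝ) * ((a : ℝ) / q))) *
      ∑ n ∈ Ioc (z - q * M) z, f n * ee ((n : ℝ) * ((a : ℝ) / q))‖ := by rw [hmain]
    _ ≤ ∑ a ∈ range q, ‖ee (-((n0 : ℝ) * ((a : ℝ) / q))) *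
      ∑ n ∈ Ioc (z - q * M) z, f n * ee ((n : ℝ) * ((a : ℝ) / q))‖ := norm_sum_le _ _
    _ = _ := by
        apply sum_congr rfl
        intro a _
        rw [norm_mul, norm_ee, one_mul]

end Pool.Agent.V60.LamPer
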