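import Pool.Agent.TH823.MRS.Circ5
import Pool.Agent.V60.LamPer
import Pool.Agent.V60.LamMach

/-! Few windows of a sequence with small exponential sums in almost all windows are periodic. -/

set_option autoImplicit false

namespace Pool.Agent.V60.LamBad

open Finset
open Pool.Agent.H807R2.Dav (ee norm_ee)
open Pool.Agent.TH823.MRS (ExpoSmall win_l1)
open Pool.Agent.V60.LamMach (BadZ FewBad)

lemma win_eq' (h : ℕ → ℂ) (X W z : ℕ) (hz : z ≤ 3 * X) (hW : W ≤ z) (α : ℝ) :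
    (∑ n ∈ Icc 1 (3 * X), if n ≤ z ∧ z < n + W then h n * ee ((n : ℝ) * α) else 0) =
      ∑ n ∈ Ioc (z - W) z, h n * ee ((n : ℝ) * α) := by
  rw [← sum_filter]
  congr 1
  ext n
  rw [mem_filter, mem_Icc, mem_Ioc]
  omega

theorem few_bad (s : ℕ → ℤ) (hs : ∀ n, s n = 1 ∨ s n = -1) (hE : ExpoSmall (fun n => (s n : ℂ))) :
    FewBad s := by
  classical
  intro S η hη
  have hε : 0 < η / ((S : ℝ) ^ 2 + 1) := by positivity
  obtain ⟨W₀, X₀, hX⟩ := win_l1 (fun n => (s n : ℂ)) hE _ hε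
  set W := S.factorial * (W₀ + 1) with hW
  have hfac : 1 ≤ S.factorial := Nat.factorial_pos S
  have hWW : W₀ + 1 ≤ W := Nat.le_mul_of_pos_left _ hfac
  refine ⟨W, by omega, max X₀ W, fun X hXX => ?_⟩
  have hX0 : X₀ ≤ X := (le_max_left _ _).trans hXX
  have hXW : W ≤ X := (le_max_right _ _).trans hXX
  set Bad := (range (3 * X + 1)).filter (fun z => W ≤ z ∧ BadZ s S W z) with hBad
  have hW0 : (0 : ℝ) < W := by exact_mod_cast (by omega : 0 < W)
  set F : ℕ → ℕ → ℕ → ℝ := fun q a z => ‖∑ n ∈ Icc 1 (3 * X), if n ≤ z ∧ z < n + W then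
    (s n : ℂ) * ee ((n : ℝ) * ((a : ℝ) / q)) else 0‖ with hFdef
  have hF0 : ∀ q a z, 0 ≤ F q a z := fun q a z => norm_nonneg _
  -- the upper bound
  have hup : ∀ q a : ℕ, ∑ z ∈ range (3 * X + 1), F q a z ≤ η / ((S : ℝ) ^ 2 + 1) * W * X := fun q a =>
    hX X hX0 W (by omega) hXW ((a : ℝ) / q)
  -- the lower bound
  have hlow : ∀ z ∈ Bad, (W : ℝ) ≤ ∑ q ∈ Icc 1 S, ∑ a ∈ range q, F q a z := by
    intro z hz
    rw [hBad, mem_filter, mem_range] at hz
    obtain ⟨hz1, hz2, q, hq1, hqS, hper⟩ := hz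
    have h1 := Pool.Agent.V60.LamPer.per q W z hq1
      (Dvd.dvd.mul_right (Nat.dvd_factorial hq1 hqS) _) hz2 (fun n => (s n : ℂ))
      (fun m hm1 hm2 => by
        show ((s (m + q) : ℤ) : ℂ) = ((s m : ℤ) : ℂ)
        rw [hper m hm1 hm2])
      (by
        show ‖((s (z - W + 1) : ℤ) : ℂ)‖ = 1
        rcases hs (z - W + 1) with h | h <;> rw [h] <;> simp)
    have h2 : ∑ a ∈ range q, ‖∑ n ∈ Ioc (z - W) z, (s n : ℂ) * ee ((n : ℝ) * ((a : ℝ) / q))‖ =
        ∑ a ∈ range q, F q a z := by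
      apply sum_congr rfl
      intro a _
      rw [hFdef]
      simp only
      rw [win_eq' (fun n => (s n : ℂ)) X W z (by omega) hz2]
    rw [h2] at h1
    exact h1.trans (single_le_sum (f := fun q => ∑ a ∈ range q, F q a z)
      (fun q _ => sum_nonneg fun a _ => hF0 q a z) (mem_Icc.2 ⟨hq1, hqS⟩))
  have h3 : (Bad.card : ℝ) * W ≤ ∑ z ∈ range (3 * X + 1), ∑ q ∈ Icc 1 S, ∑ a ∈ range q, F q a z := by
    calc (Bad.card : ℝ) * W = ∑ _z ∈ Bad, (W : ℝ) := by rw [sum_const, nsmul_eq_mul]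
      _ ≤ ∑ z ∈ Bad, ∑ q ∈ Icc 1 S, ∑ a ∈ range q, F q a z := sum_le_sum hlow
      _ ≤ _ := sum_le_sum_of_subset_of_nonneg (filter_subset _ _)
          (fun z _ _ => sum_nonneg fun q _ => sum_nonneg fun a _ => hF0 q a z)
  rw [sum_comm] at h3
  have h4 : ∑ q ∈ Icc 1 S, ∑ z ∈ range (3 * X + 1), ∑ a ∈ range q, F q a z ≤
      ∑ q ∈ Icc 1 S, (S : ℝ) * (η / ((S : ℝ) ^ 2 + 1) * W * X) := by
    apply sum_le_sum
    intro q hq
    rw [mem_Icc] at hq
    rw [sum_comm]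
    calc ∑ a ∈ range q, ∑ z ∈ range (3 * X + 1), F q a z
        ≤ ∑ _a ∈ range q, (η / ((S : ℝ) ^ 2 + 1) * W * X) := sum_le_sum fun a _ => hup q a
      _ = q * (η / ((S : ℝ) ^ 2 + 1) * W * X) := by rw [sum_const, card_range, nsmul_eq_mul]
      _ ≤ _ := by
          apply mul_le_mul_of_nonneg_right _ (by positivity)
          exact_mod_cast hq.2
  rw [sum_const, Nat.card_Icc, nsmul_eq_mul] at h4
  have h5 : (Bad.card : ℝ) * W ≤ (S : ℝ) * (S * (η / ((S : ℝ) ^ 2 + 1) * W * X)) := by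
    refine h3.trans (h4.trans (le_of_eq ?_))
    congr 1
  have h6 : (S : ℝ) * (S * (η / ((S : ℝ) ^ 2 + 1) * W * X)) ≤ η * X * W := by
    have e1 : (S : ℝ) * (S * (η / ((S : ℝ) ^ 2 + 1) * W * X)) =
        ((S : ℝ) ^ 2 / ((S : ℝ) ^ 2 + 1)) * (η * X * W) := by
      field_simp
    rw [e1]
    have e2 : (S : ℝ) ^ 2 / ((S : ℝ) ^ 2 + 1) ≤ 1 := by
      rw [div_le_one (by positivity)]
      linarith
    have e3 : 0 ≤ η * X * W := by positivity
    nlinarith
  exact le_of_mul_le_mul_right (h5.trans h6) hW0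

/-- the Liouville function -/
def lam (n : ℕ) : ℤ := (-1) ^ ArithmeticFunction.cardFactors n

theorem lam_sign (n : ℕ) : lam n = 1 ∨ lam n = -1 := neg_one_pow_eq_or ℤ _

theorem few_bad_lam : FewBad lam := by
  apply few_bad lam lam_sign
  have h := Pool.Agent.TH823.MRS.liR_E
  have e : (fun n => ((lam n : ℤ) : ℂ)) = Pool.Agent.H373R2.T7.liR := by
    funext n
    unfold lam Pool.Agent.H373R2.T7.liR
    push_cast
    rfl
  rw [e]
  exact h

end Pool.Agent.V60.LamBad
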